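import Mathlib

/-!
# Project TZ (MP_0f6f3f_an), source side, part (A): powers of elements near `1`

`𝔐` a normed ring, `Off` an additive contraction (the off-diagonal part) killing `1`.
-/

set_option autoImplicit false

namespace Pool.Agent.Helper7.TZ

variable {𝔐 : Type*} [NormedRing 𝔐] [NormOneClass 𝔐]

/-- `(1 + x)^a = 1 + a x + O((a |x|)²)` -/
theorem pow_est (x : 𝔐) (a : ℕ) (h : a * ‖x‖ ≤ 1) :
    ‖(1 + x) ^ a - 1 - (a : 𝔐) * x‖ ≤ (a * ‖x‖) ^ 2 := by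
  induction a with
  | zero => simp
  | succ a ih =>
    have hx := norm_nonneg x
    have h1 : (a : ℝ) * ‖x‖ ≤ 1 := by
      refine le_trans ?_ h
      push_cast
      nlinarith
    have h2 := ih h1
    have e : (1 + x) ^ (a + 1) - 1 - ((a + 1 : ℕ) : 𝔐) * x =
        ((1 + x) ^ a - 1 - (a : 𝔐) * x) * (1 + x) + (a : 𝔐) * (x * x) := by
      rw [pow_succ]
      push_cast
      noncomm_ring
    rw [e]
    have h3 : ‖(1 : 𝔐) + x‖ ≤ 1 + ‖x‖ := by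
      refine (norm_add_le _ _).trans ?_
      rw [norm_one]
    have h4 : ‖(a : 𝔐) * (x * x)‖ ≤ a * (‖x‖ * ‖x‖) := by
      rw [← nsmul_eq_mul]
      refine (norm_nsmul_le).trans ?_
      exact mul_le_mul_of_nonneg_left (norm_mul_le _ _) (Nat.cast_nonneg a)
    calc ‖((1 + x) ^ a - 1 - (a : 𝔐) * x) * (1 + x) + (a : 𝔐) * (x * x)‖
        ≤ (a * ‖x‖) ^ 2 * (1 + ‖x‖) + a * (‖x‖ * ‖x‖) := by
          refine (norm_add_le _ _).trans (add_le_add ?_ h4)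
          exact (norm_mul_le _ _).trans (mul_le_mul h2 h3 (norm_nonneg _) (by positivity))
      _ ≤ (((a + 1 : ℕ) : ℝ) * ‖x‖) ^ 2 := by
          push_cast
          have h5 : (a * ‖x‖) ^ 2 * ‖x‖ ≤ (a * ‖x‖) * ‖x‖ := by
            have : (a * ‖x‖) ^ 2 ≤ a * ‖x‖ := by
              rw [sq]
              have h0 : 0 ≤ a * ‖x‖ := by positivity
              nlinarith
            exact mul_le_mul_of_nonneg_right this hx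
          nlinarith [sq_nonneg ‖x‖]

theorem pow_norm (x : 𝔐) (a : ℕ) (h : a * ‖x‖ ≤ 1) : ‖(1 + x) ^ a‖ ≤ 3 := by
  have h1 := pow_est x a h
  have e : (1 + x) ^ a = ((1 + x) ^ a - 1 - (a : 𝔐) * x) + 1 + (a : 𝔐) * x := by abel
  rw [e]
  have h2 : ‖(a : 𝔐) * x‖ ≤ a * ‖x‖ := by
    rw [← nsmul_eq_mul]
    exact norm_nsmul_le
  have h3 : (a * ‖x‖) ^ 2 ≤ 1 := by
    have h0 : 0 ≤ a * ‖x‖ := by positivity
    nlinarith
  calc ‖((1 + x) ^ a - 1 - (a : 𝔐) * x) + 1 + (a : 𝔐) * x‖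
      ≤ ‖((1 + x) ^ a - 1 - (a : 𝔐) * x)‖ + ‖(1 : 𝔐)‖ + ‖(a : 𝔐) * x‖ := norm_add₃_le
    _ ≤ (a * ‖x‖) ^ 2 + 1 + a * ‖x‖ := by
        rw [norm_one]
        exact add_le_add (add_le_add h1 le_rfl) h2
    _ ≤ 3 := by linarith

/-- a power of an element `1 + Δ + E`, `‖E‖ ≤ ‖Δ‖ / 8`, in the shell -/
theorem shell [NormedAlgebra ℝ 𝔐] (Off : 𝔐 →+ 𝔐) (hO : ∀ x, ‖Off x‖ ≤ ‖x‖) (hO1 : Off 1 = 0) (x Δ : 𝔐)
    (hΔ : Off Δ = Δ) (hΔ0 : 0 < ‖Δ‖) (hΔ1 : ‖Δ‖ ≤ 1 / 16) (hx : ‖x - Δ‖ ≤ ‖Δ‖ / 8) :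
    ∃ a : ℕ, (a : ℝ) * ‖Δ‖ ≤ 1 / 8 ∧ 1 / 32 ≤ ‖Off ((1 + x) ^ a)‖ := by
  set a : ℕ := ⌊1 / (8 * ‖Δ‖)⌋₊ with ha
  have h1 : (a : ℝ) ≤ 1 / (8 * ‖Δ‖) := Nat.floor_le (by positivity)
  have h2 : 1 / (8 * ‖Δ‖) < a + 1 := Nat.lt_floor_add_one _
  have h3 : (a : ℝ) * ‖Δ‖ ≤ 1 / 8 := by
    rw [le_div_iff₀ (by positivity)] at h1
    linarith
  have h4 : 1 / 16 ≤ (a : ℝ) * ‖Δ‖ := by
    rw [div_lt_iff₀ (by positivity)] at h2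
    nlinarith
  refine ⟨a, h3, ?_⟩
  have hxn : ‖x‖ ≤ 9 / 8 * ‖Δ‖ := by
    have : x = (x - Δ) + Δ := by abel
    rw [this]
    refine (norm_add_le _ _).trans ?_
    linarith
  have hax : (a : ℝ) * ‖x‖ ≤ 9 / 64 := by
    have := mul_le_mul_of_nonneg_left hxn (Nat.cast_nonneg (α := ℝ) a)
    nlinarith
  have h5 := pow_est x a (by linarith)
  have e : Off ((1 + x) ^ a) = (a : 𝔐) * Δ + (Off ((a : 𝔐) * (x - Δ)) +
      Off ((1 + x) ^ a - 1 - (a : 𝔐) * x)) := by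
    have e1 : (1 + x) ^ a = 1 + ((a : 𝔐) * Δ + ((a : 𝔐) * (x - Δ) +
        ((1 + x) ^ a - 1 - (a : 𝔐) * x))) := by
      rw [mul_sub]
      abel
    conv_lhs => rw [e1]
    have e2 : Off ((a : 𝔐) * Δ) = (a : 𝔐) * Δ := by
      rw [← nsmul_eq_mul, map_nsmul, hΔ]
    rw [map_add, hO1, zero_add, map_add, e2, map_add]
  have h6 : ‖Off ((a : 𝔐) * (x - Δ))‖ ≤ a * (‖Δ‖ / 8) := by
    refine (hO _).trans ?_
    rw [← nsmul_eq_mul]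
    exact norm_nsmul_le.trans (mul_le_mul_of_nonneg_left hx (Nat.cast_nonneg a))
  have h7 : ‖Off ((1 + x) ^ a - 1 - (a : 𝔐) * x)‖ ≤ (9 / 64) ^ 2 := by
    refine (hO _).trans (h5.trans ?_)
    exact pow_le_pow_left₀ (by positivity) hax 2
  have h8 : ‖(a : 𝔐) * Δ‖ = a * ‖Δ‖ := by
    rw [← nsmul_eq_mul, ← Nat.cast_smul_eq_nsmul ℝ, norm_smul, Real.norm_natCast]
  have h9 : ‖(a : 𝔐) * Δ‖ ≤ ‖Off ((1 + x) ^ a)‖ + ‖Off ((a : 𝔐) * (x - Δ)) +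
      Off ((1 + x) ^ a - 1 - (a : 𝔐) * x)‖ := by
    have e2 : (a : 𝔐) * Δ = Off ((1 + x) ^ a) - (Off ((a : 𝔐) * (x - Δ)) +
      Off ((1 + x) ^ a - 1 - (a : 𝔐) * x)) := by
      rw [e]
      abel
    conv_lhs => rw [e2]
    exact norm_sub_le _ _
  have h10 := norm_add_le (Off ((a : 𝔐) * (x - Δ))) (Off ((1 + x) ^ a - 1 - (a : 𝔐) * x))
  rw [h8] at h9
  nlinarith

end Pool.Agent.Helper7.TZ
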