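import Pool.Agent.Helper43.TZ.D34
import Pool.Agent.Helper7.TZ.Pow

/-!
# Project TZ (MP_0f6f3f_an), source side, part (A): many separated elements with powers in a shell

`S` a topological group with a proper continuous representation `ρ` by `m × m` matrices over a
normed ring `K` (finite dimensional over `ℝ`), whose image contains the unipotent upper and lower
triangular matrices.
-/

set_option autoImplicit false
set_option linter.unusedSectionVars false
set_option linter.style.haveILetI false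

open Filter Topology
open scoped NNReal

namespace Pool.Agent.Helper7.TZ

/-- the product estimate -/
theorem quot_est {𝔐 : Type*} [NormedRing 𝔐] [NormOneClass 𝔐] {X Y X' Y' g' Δ : 𝔐} {r : ℝ}
    (hr : r ≤ 1 / 100) (hX' : ‖X'‖ ≤ r) (hY : ‖Y‖ ≤ r) (hY' : ‖Y'‖ ≤ r)
    (hΔ : Δ = (X + Y) - (X' + Y')) (h1 : ‖X - X'‖ ≤ ‖Δ‖) (h2 : ‖Y - Y'‖ ≤ ‖Δ‖)
    (hg : g' * ((1 + X') * (1 + Y')) = 1) :
    ‖(g' * ((1 + X) * (1 + Y)) - 1) - Δ‖ ≤ ‖Δ‖ / 8 := by
  have hr0 : 0 ≤ r := (norm_nonneg _).trans hX'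
  have hD := norm_nonneg Δ
  set E' : 𝔐 := (X - X') * Y + X' * (Y - Y') with hE'
  have hE'n : ‖E'‖ ≤ 2 * r * ‖Δ‖ := by
    refine (norm_add_le _ _).trans ?_
    have a1 : ‖(X - X') * Y‖ ≤ ‖Δ‖ * r :=
      (norm_mul_le _ _).trans (mul_le_mul h1 hY (norm_nonneg _) hD)
    have a2 : ‖X' * (Y - Y')‖ ≤ r * ‖Δ‖ :=
      (norm_mul_le _ _).trans (mul_le_mul hX' h2 (norm_nonneg _) hr0)
    linarith
  have hg1 : ‖(1 + X') * (1 + Y') - 1‖ ≤ 3 * r := by
    have e : (1 + X') * (1 + Y') - 1 = X' + Y' + X' * Y' := by noncomm_ring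
    rw [e]
    have a1 : ‖X' * Y'‖ ≤ r * r := (norm_mul_le _ _).trans (mul_le_mul hX' hY' (norm_nonneg _) hr0)
    have a2 : r * r ≤ r := by nlinarith
    refine norm_add₃_le.trans ?_
    linarith
  have hgd : g' - 1 = -(g' * ((1 + X') * (1 + Y') - 1)) := by
    rw [mul_sub, hg, mul_one]
    abel
  have hgd2 : ‖g' - 1‖ ≤ ‖g'‖ * (3 * r) := by
    rw [hgd, norm_neg]
    exact (norm_mul_le _ _).trans (mul_le_mul_of_nonneg_left hg1 (norm_nonneg _))
  have hgn : ‖g'‖ ≤ 2 := by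
    have a1 : ‖g'‖ ≤ ‖g' - 1‖ + 1 := by
      have : g' = (g' - 1) + 1 := by abel
      conv_lhs => rw [this]
      refine (norm_add_le _ _).trans ?_
      rw [norm_one]
    have a2 : ‖g'‖ * (3 * r) ≤ ‖g'‖ * (3 / 100) :=
      mul_le_mul_of_nonneg_left (by linarith) (norm_nonneg _)
    linarith
  have hgd3 : ‖g' - 1‖ ≤ 6 * r := by
    refine hgd2.trans ?_
    nlinarith
  have e : (g' * ((1 + X) * (1 + Y)) - 1) - Δ = (g' - 1) * (Δ + E') + E' := by
    have e1 : (1 + X) * (1 + Y) = (1 + X') * (1 + Y') + (Δ + E') := by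
      rw [hΔ, hE']
      noncomm_ring
    rw [e1, mul_add, hg]
    noncomm_ring
  rw [e]
  have a1 : ‖(g' - 1) * (Δ + E')‖ ≤ 6 * r * (‖Δ‖ + 2 * r * ‖Δ‖) := by
    refine (norm_mul_le _ _).trans (mul_le_mul hgd3 ?_ (norm_nonneg _) (by positivity))
    exact (norm_add_le _ _).trans (add_le_add le_rfl hE'n)
  refine (norm_add_le _ _).trans ?_
  have a2 : r * ‖Δ‖ ≤ 1 / 100 * ‖Δ‖ := mul_le_mul_of_nonneg_right hr hD
  have a3 : r * (r * ‖Δ‖) ≤ r * (1 / 100 * ‖Δ‖) := mul_le_mul_of_nonneg_left a2 hr0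
  nlinarith

section Mat

open scoped Matrix.Norms.Operator

variable {m : ℕ} {K : Type*} [NormedRing K]

theorem entry_le (A : Matrix (Fin m) (Fin m) K) (i j : Fin m) : ‖A i j‖ ≤ ‖A‖ := by
  rw [Matrix.linfty_opNorm_def]
  have h1 : ‖A i j‖₊ ≤ ∑ j, ‖A i j‖₊ :=
    Finset.single_le_sum (f := fun j => ‖A i j‖₊) (fun _ _ => zero_le) (Finset.mem_univ j)
  have h2 : (∑ j, ‖A i j‖₊) ≤ (Finset.univ : Finset (Fin m)).sup fun i => ∑ j, ‖A i j‖₊ :=
    Finset.le_sup (f := fun i => ∑ j, ‖A i j‖₊) (Finset.mem_univ i)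
  exact_mod_cast h1.trans h2

theorem norm_mono {A B : Matrix (Fin m) (Fin m) K} (h : ∀ i j, ‖A i j‖ ≤ ‖B i j‖) : ‖A‖ ≤ ‖B‖ := by
  rw [Matrix.linfty_opNorm_def, Matrix.linfty_opNorm_def]
  have : (Finset.univ : Finset (Fin m)).sup (fun i => ∑ j, ‖A i j‖₊) ≤
      (Finset.univ : Finset (Fin m)).sup fun i => ∑ j, ‖B i j‖₊ :=
    Finset.sup_mono_fun fun i _ => Finset.sum_le_sum fun j _ => h i j
  exact_mod_cast this

theorem norm_le_entries {A : Matrix (Fin m) (Fin m) K} {c : ℝ} (hc : 0 ≤ c)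
    (h : ∀ i j, ‖A i j‖ ≤ c) : ‖A‖ ≤ m * c := by
  rw [Matrix.linfty_opNorm_def]
  have h1 : (Finset.univ : Finset (Fin m)).sup (fun i => ∑ j, ‖A i j‖₊) ≤ m * ⟨c, hc⟩ := by
    refine Finset.sup_le fun i _ => ?_
    refine (Finset.sum_le_card_nsmul _ _ (⟨c, hc⟩ : ℝ≥0) fun j _ => ?_).trans ?_
    · exact_mod_cast h i j
    · rw [Finset.card_univ, Fintype.card_fin, nsmul_eq_mul]
      exact le_rfl
  exact_mod_cast h1

/-- the off-diagonal part -/
def Off (m : ℕ) (K : Type*) [NormedRing K] : Matrix (Fin m) (Fin m) K →+ Matrix (Fin m) (Fin m) K where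
  toFun A := Matrix.of fun i j => if i = j then 0 else A i j
  map_zero' := by ext i j; simp
  map_add' A B := by ext i j; simp only [Matrix.of_apply, Matrix.add_apply]; split_ifs <;> simp

theorem Off_apply (A : Matrix (Fin m) (Fin m) K) (i j : Fin m) :
    Off m K A i j = if i = j then 0 else A i j := rfl

theorem Off_norm (A : Matrix (Fin m) (Fin m) K) : ‖Off m K A‖ ≤ ‖A‖ := by
  refine norm_mono fun i j => ?_
  rw [Off_apply]
  split_ifs
  · rw [norm_zero]; exact norm_nonneg _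
  · exact le_rfl

theorem Off_one : Off m K 1 = 0 := by
  ext i j
  rw [Off_apply, Matrix.one_apply]
  split_ifs <;> rfl

/-- lower and upper triangular parts -/
def low (A : Matrix (Fin m) (Fin m) K) : Matrix (Fin m) (Fin m) K :=
  Matrix.of fun i j => if j < i then A i j else 0

def upp (A : Matrix (Fin m) (Fin m) K) : Matrix (Fin m) (Fin m) K :=
  Matrix.of fun i j => if i < j then A i j else 0

theorem low_sub (A B : Matrix (Fin m) (Fin m) K) : low A - low B = low (A - B) := by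
  ext i j; simp only [low, Matrix.of_apply, Matrix.sub_apply]; split_ifs <;> simp

theorem upp_sub (A B : Matrix (Fin m) (Fin m) K) : upp A - upp B = upp (A - B) := by
  ext i j; simp only [upp, Matrix.of_apply, Matrix.sub_apply]; split_ifs <;> simp

theorem low_norm (A : Matrix (Fin m) (Fin m) K) : ‖low A‖ ≤ ‖A‖ := by
  refine norm_mono fun i j => ?_
  simp only [low, Matrix.of_apply]
  split_ifs
  · exact le_rfl
  · rw [norm_zero]; exact norm_nonneg _

theorem upp_norm (A : Matrix (Fin m) (Fin m) K) : ‖upp A‖ ≤ ‖A‖ := by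
  refine norm_mono fun i j => ?_
  simp only [upp, Matrix.of_apply]
  split_ifs
  · exact le_rfl
  · rw [norm_zero]; exact norm_nonneg _

theorem low_add_upp {A : Matrix (Fin m) (Fin m) K} (h : ∀ i, A i i = 0) : low A + upp A = A := by
  ext i j
  simp only [low, upp, Matrix.of_apply, Matrix.add_apply]
  rcases lt_trichotomy i j with h1 | h1 | h1
  · simp [h1, h1.not_gt]
  · subst h1; simp [h]
  · simp [h1, h1.not_gt]

end Mat

section Main

open scoped Matrix.Norms.Operator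

open Pool.Agent.Helper43.TZ

variable {m : ℕ} {K : Type} [NormedRing K] [NormedAlgebra ℝ K] [FiniteDimensional ℝ K]

/-- the index set of the parameters -/
abbrev Ix (m : ℕ) (K : Type) [NormedRing K] [NormedAlgebra ℝ K] : Type :=
  {p : Fin m × Fin m // p.1 ≠ p.2} × Fin (Module.finrank ℝ K)

theorem card_Ix : Fintype.card (Ix m K) = Module.finrank ℝ K * (m * (m - 1)) := by
  have h1 : Fintype.card {p : Fin m × Fin m // p.1 ≠ p.2} = m * (m - 1) := by
    rw [Fintype.card_subtype]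
    have h2 : (Finset.univ.filter fun p : Fin m × Fin m => p.1 ≠ p.2) =
        (Finset.univ : Finset (Fin m)).offDiag := by
      ext p
      simp
    rw [h2, Finset.offDiag_card, Finset.card_univ, Fintype.card_fin, Nat.mul_sub, mul_one]
  rw [Fintype.card_prod, h1, Fintype.card_fin, mul_comm]

/-- the matrices of the grid -/
noncomputable def Zm (c : ℝ) (a : Ix m K → ℕ) : Matrix (Fin m) (Fin m) K :=
  Matrix.of fun i j => if h : i ≠ j then
    ∑ l, (c * a (⟨(i, j), h⟩, l)) • (Module.finBasis ℝ K) l else 0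

theorem Zm_diag (c : ℝ) (a : Ix m K → ℕ) (i : Fin m) : Zm c a i i = 0 := by
  simp [Zm]

theorem Zm_norm {c : ℝ} (hc : 0 ≤ c) {a : Ix m K → ℕ} {q : ℕ} (ha : ∀ p, a p ≤ q) :
    ‖Zm c a‖ ≤ m * (c * q * ∑ l, ‖(Module.finBasis ℝ K) l‖) := by
  refine norm_le_entries (by positivity) fun i j => ?_
  simp only [Zm, Matrix.of_apply]
  split_ifs with h
  · refine (norm_sum_le _ _).trans ?_
    rw [Finset.mul_sum]
    refine Finset.sum_le_sum fun l _ => ?_
    rw [norm_smul, Real.norm_eq_abs, abs_of_nonneg (by positivity)]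
    refine mul_le_mul_of_nonneg_right (mul_le_mul_of_nonneg_left ?_ hc) (norm_nonneg _)
    exact_mod_cast ha _
  · rw [norm_zero]; positivity

theorem exists_sep (K : Type) [NormedRing K] [NormedAlgebra ℝ K] [FiniteDimensional ℝ K] :
    ∃ C : ℝ, 0 < C ∧ ∀ (m : ℕ) (c : ℝ), 0 ≤ c → ∀ a b : Ix m K → ℕ, a ≠ b →
      c ≤ C * ‖Zm c a - Zm c b‖ := by
  set e := Module.finBasis ℝ K with he
  set T : K →L[ℝ] (Fin (Module.finrank ℝ K) → ℝ) :=
    (e.equivFunL : K →L[ℝ] (Fin (Module.finrank ℝ K) → ℝ)) with hT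
  refine ⟨‖T‖ + 1, by positivity, ?_⟩
  intro m c hc a b hab
  obtain ⟨⟨⟨⟨i, j⟩, hij⟩, l⟩, hne⟩ : ∃ p, a p ≠ b p := by
    by_contra h
    push Not at h
    exact hab (funext h)
  have h1 : ‖(Zm c a - Zm c b) i j‖ ≤ ‖Zm c a - Zm c b‖ := entry_le _ i j
  have h2 : (Zm c a - Zm c b) i j =
      ∑ l, (c * a (⟨(i, j), hij⟩, l) - c * b (⟨(i, j), hij⟩, l)) • e l := by
    have hij' : i ≠ j := hij
    rw [Matrix.sub_apply]
    simp only [Zm, Matrix.of_apply, dif_pos hij', sub_smul, Finset.sum_sub_distrib]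
    rfl
  have h3 : T ((Zm c a - Zm c b) i j) l = c * a (⟨(i, j), hij⟩, l) - c * b (⟨(i, j), hij⟩, l) := by
    rw [h2]
    have h4 : ∀ f : Fin (Module.finrank ℝ K) → ℝ, T (∑ l, f l • e l) l = f l := by
      intro f
      show e.equivFun (∑ l, f l • e l) l = f l
      rw [← Module.Basis.equivFun_symm_apply, LinearEquiv.apply_symm_apply]
    exact h4 fun l => c * a (⟨(i, j), hij⟩, l) - c * b (⟨(i, j), hij⟩, l)
  have h5 : ‖T ((Zm c a - Zm c b) i j) l‖ ≤ ‖T‖ * ‖(Zm c a - Zm c b) i j‖ :=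
    (norm_le_pi_norm _ l).trans (T.le_opNorm _)
  have h6 : c ≤ ‖T ((Zm c a - Zm c b) i j) l‖ := by
    rw [h3, ← mul_sub, norm_mul, Real.norm_eq_abs, abs_of_nonneg hc]
    have h7 : (1 : ℝ) ≤ ‖(a (⟨(i, j), hij⟩, l) : ℝ) - b (⟨(i, j), hij⟩, l)‖ := by
      have h8 : (1 : ℤ) ≤ |(a (⟨(i, j), hij⟩, l) : ℤ) - b (⟨(i, j), hij⟩, l)| := by
        refine Int.one_le_abs ?_
        intro h0
        exact hne (by exact_mod_cast sub_eq_zero.1 h0)
      rw [Real.norm_eq_abs]
      exact_mod_cast h8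
    nlinarith
  have h9 : ‖T‖ * ‖(Zm c a - Zm c b) i j‖ ≤ (‖T‖ + 1) * ‖Zm c a - Zm c b‖ :=
    mul_le_mul (by linarith) h1 (norm_nonneg _) (by positivity)
  linarith

/-- **Part (A).** -/
theorem exists_fam [NormOneClass K] {S : Type} [Group S] [TopologicalSpace S] (hm : 0 < m)
    (ρ : S →* Matrix (Fin m) (Fin m) K) (hc : ∀ i j, Continuous fun s => ρ s i j)
    (hp : ∀ R : ℝ, IsCompact {s : S | (∀ i j, ‖ρ s i j‖ ≤ R) ∧ ∀ i j, ‖ρ s⁻¹ i j‖ ≤ R})
    (hlow : ∀ X : Matrix (Fin m) (Fin m) K, (∀ i j, i ≤ j → X i j = 0) → ∃ s, ρ s = 1 + X)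
    (hupp : ∀ X : Matrix (Fin m) (Fin m) K, (∀ i j, j ≤ i → X i j = 0) → ∃ s, ρ s = 1 + X) :
    ∃ F : Fam S, F.d1 = Module.finrank ℝ K * (m * (m - 1)) ∧
      ∀ t ∈ F.Sg, ∃ i j, i ≠ j ∧ ρ t i j ≠ 0 := by
  classical
  haveI : Nonempty (Fin m) := ⟨⟨0, hm⟩⟩
  have hm' : (0 : ℝ) < m := by exact_mod_cast hm
  obtain ⟨C, hC0, hC⟩ := exists_sep K
  set Se : ℝ := ∑ l, ‖(Module.finBasis ℝ K) l‖ with hSe
  have hSe0 : 0 ≤ Se := Finset.sum_nonneg fun _ _ => norm_nonneg _
  set κ : ℝ := 1 / (100 * m * (Se + 1)) with hκ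
  have hκ0 : 0 < κ := by positivity
  set c1 : ℝ := 1 / (64 * m) with hc1
  have hc10 : 0 < c1 := by positivity
  set Cp : Set S := {s : S | (∀ i j, ‖ρ s i j‖ ≤ 3) ∧ ∀ i j, ‖ρ s⁻¹ i j‖ ≤ 3} with hCp
  have hCpc : IsCompact Cp := hp 3
  set Sg : Set S := Cp ∩ {s | ∃ i j, i ≠ j ∧ c1 ≤ ‖ρ s i j‖} with hSg
  have hSgc : IsCompact Sg := by
    refine hCpc.inter_right ?_
    have : {s : S | ∃ i j, i ≠ j ∧ c1 ≤ ‖ρ s i j‖} =
        ⋃ i : Fin m, ⋃ j : Fin m, {s | i ≠ j ∧ c1 ≤ ‖ρ s i j‖} := by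
      ext s; simp
    rw [this]
    refine isClosed_iUnion_of_finite fun i => isClosed_iUnion_of_finite fun j => ?_
    by_cases hij : i = j
    · have : {s : S | i ≠ j ∧ c1 ≤ ‖ρ s i j‖} = ∅ := by
        ext s; simp [hij]
      rw [this]
      exact isClosed_empty
    · have : {s : S | i ≠ j ∧ c1 ≤ ‖ρ s i j‖} = {s | c1 ≤ ‖ρ s i j‖} := by
        ext s; simp [hij]
      rw [this]
      exact isClosed_le continuous_const (hc i j).norm
  -- the elements of the family
  have hex : ∀ Z : Matrix (Fin m) (Fin m) K, ∃ s : S, ρ s = (1 + low Z) * (1 + upp Z) := by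
    intro Z
    obtain ⟨s1, h1⟩ := hlow (low Z) (fun i j hij => by simp [low, not_lt.2 hij])
    obtain ⟨s2, h2⟩ := hupp (upp Z) (fun i j hij => by simp [upp, not_lt.2 hij])
    exact ⟨s1 * s2, by rw [map_mul, h1, h2]⟩
  choose el hel using hex
  -- the key estimate for two elements
  have key : ∀ Z Z' : Matrix (Fin m) (Fin m) K, ‖Z‖ ≤ 1 / 100 → ‖Z'‖ ≤ 1 / 100 →
      (∀ i, Z i i = 0) → (∀ i, Z' i i = 0) →
      ‖(ρ ((el Z')⁻¹ * el Z) - 1) - (Z - Z')‖ ≤ ‖Z - Z'‖ / 8 := by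
    intro Z Z' hZ hZ' hd hd'
    have h := quot_est (X := low Z) (Y := upp Z) (X' := low Z') (Y' := upp Z')
      (g' := ρ (el Z')⁻¹) (Δ := Z - Z') (r := 1 / 100) le_rfl ((low_norm _).trans hZ')
      ((upp_norm _).trans hZ) ((upp_norm _).trans hZ')
      (by rw [low_add_upp hd, low_add_upp hd']) (by rw [low_sub]; exact low_norm _)
      (by rw [upp_sub]; exact upp_norm _)
      (by rw [← hel, ← map_mul, inv_mul_cancel, map_one])
    rwa [← hel, ← map_mul] at h
  have hbd : ∀ Z : Matrix (Fin m) (Fin m) K, ‖Z‖ ≤ 1 / 100 → (∀ i, Z i i = 0) → el Z ∈ Cp := by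
    intro Z hZ hd
    have hZ0 : ‖(0 : Matrix (Fin m) (Fin m) K)‖ ≤ 1 / 100 := by rw [norm_zero]; norm_num
    have e0 : ρ (el 0) = 1 := by
      rw [hel]
      have h1 : low (0 : Matrix (Fin m) (Fin m) K) = 0 := by ext i j; simp [low]
      have h2 : upp (0 : Matrix (Fin m) (Fin m) K) = 0 := by ext i j; simp [upp]
      rw [h1, h2]; simp
    have e0' : ρ (el 0)⁻¹ = 1 := by
      have h1 : ρ (el 0) * ρ (el 0)⁻¹ = 1 := by rw [← map_mul, mul_inv_cancel, map_one]
      rwa [e0, one_mul] at h1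
    have n1 : ‖ρ (el Z)‖ ≤ 3 := by
      have h := key Z 0 hZ hZ0 hd (fun i => rfl)
      rw [map_mul, e0', one_mul, sub_zero] at h
      have e : ρ (el Z) = ((ρ (el Z) - 1) - Z) + 1 + Z := by abel
      rw [e]
      refine norm_add₃_le.trans ?_
      rw [norm_one]
      linarith
    have n2 : ‖ρ (el Z)⁻¹‖ ≤ 3 := by
      have h := key 0 Z hZ0 hZ (fun i => rfl) hd
      rw [map_mul, e0, mul_one, zero_sub, norm_neg] at h
      have e : ρ (el Z)⁻¹ = ((ρ (el Z)⁻¹ - 1) - (-Z)) + 1 + (-Z) := by abel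
      rw [e]
      refine norm_add₃_le.trans ?_
      rw [norm_one, norm_neg]
      linarith
    exact ⟨fun i j => (entry_le _ i j).trans n1, fun i j => (entry_le _ i j).trans n2⟩
  refine ⟨⟨Cp, hCpc, Sg, hSgc, Module.finrank ℝ K * (m * (m - 1)), 1, C / κ, one_pos, ?_⟩, rfl, ?_⟩
  · intro η hη hη1
    set q : ℕ := ⌈1 / η⌉₊ with hq
    have hq1 : 1 / η ≤ q := Nat.le_ceil _
    have hq2 : (q : ℝ) < 1 / η + 1 := Nat.ceil_lt_add_one (by positivity)
    have hq0 : (0 : ℝ) < q := lt_of_lt_of_le (by positivity) hq1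
    have hq3 : (q : ℝ) * η ≤ 2 := by
      have : (q : ℝ) * η < (1 / η + 1) * η := mul_lt_mul_of_pos_right hq2 hη
      rw [add_mul, one_mul, one_div_mul_cancel hη.ne'] at this
      linarith
    set c : ℝ := κ / q with hcdef
    have hc0 : 0 < c := by positivity
    set eq := (Fintype.equivFin (Ix m K → Fin q)).symm with heq
    set Z : (Ix m K → Fin q) → Matrix (Fin m) (Fin m) K := fun a => Zm c fun p => (a p : ℕ) with hZ
    have hZn : ∀ a, ‖Z a‖ ≤ 1 / 100 := by
      intro a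
      refine (Zm_norm (q := q) hc0.le fun p => (a p).2.le).trans ?_
      have e1 : c * q = κ := by rw [hcdef]; field_simp
      rw [e1, hκ, ← hSe]
      have e2 : (m : ℝ) * (1 / (100 * m * (Se + 1)) * Se) = Se / (Se + 1) / 100 := by
        field_simp
      rw [e2]
      have e3 : Se / (Se + 1) ≤ 1 := by
        rw [div_le_one (by positivity)]
        linarith
      linarith
    have hZd : ∀ a i, Z a i i = 0 := fun a i => Zm_diag _ _ i
    refine ⟨Fintype.card (Ix m K → Fin q), fun i => el (Z (eq i)), ?_, ?_, ?_⟩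
    · rw [Fintype.card_fun, Fintype.card_fin, card_Ix]
      push_cast
      rw [← mul_pow]
      refine one_le_pow₀ ?_
      rw [div_le_iff₀ hη] at hq1
      exact hq1
    · intro i
      exact hbd _ (hZn _) (hZd _)
    · intro i j hij
      set a := eq i with ha
      set b := eq j with hb
      have hab : (fun p => ((a p : Fin q) : ℕ)) ≠ fun p => ((b p : Fin q) : ℕ) := by
        intro h
        apply hij
        apply eq.injective
        funext p
        exact Fin.ext (congrFun h p)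
      have hsep := hC m c hc0.le _ _ hab
      have hsep' : c ≤ C * ‖Z a - Z b‖ := hsep
      have hΔ0 : 0 < ‖Z a - Z b‖ := by
        by_contra h0
        have : ‖Z a - Z b‖ = 0 := le_antisymm (not_lt.1 h0) (norm_nonneg _)
        rw [this, mul_zero] at hsep'
        linarith
      have hΔ1 : ‖Z a - Z b‖ ≤ 1 / 16 := by
        refine (norm_sub_le _ _).trans ?_
        have h1 := hZn a
        have h2 := hZn b
        linarith
      have hk := key (Z a) (Z b) (hZn a) (hZn b) (hZd a) (hZd b)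
      have hk' := key (Z b) (Z a) (hZn b) (hZn a) (hZd b) (hZd a)
      have hOffΔ : Off m K (Z a - Z b) = Z a - Z b := by
        ext x y
        rw [Off_apply]
        split_ifs with hxy
        · subst hxy
          rw [Matrix.sub_apply, hZd, hZd, sub_zero]
        · rfl
      obtain ⟨n, hn1, hn2⟩ := shell (Off m K) Off_norm Off_one
        (ρ ((el (Z b))⁻¹ * el (Z a)) - 1) (Z a - Z b) hOffΔ hΔ0 hΔ1 hk
      refine ⟨n, ?_, ⟨?_, ?_⟩, ?_⟩
      · -- `n η ≤ C / κ`
        rw [le_div_iff₀ hκ0]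
        have e1 : κ = c * q := by rw [hcdef]; field_simp
        calc (n : ℝ) * η * κ = n * (q * η) * c := by rw [e1]; ring
          _ ≤ n * 2 * (C * ‖Z a - Z b‖) := by
              refine mul_le_mul ?_ hsep' hc0.le (by positivity)
              exact mul_le_mul_of_nonneg_left hq3 (Nat.cast_nonneg n)
          _ = 2 * C * (n * ‖Z a - Z b‖) := by ring
          _ ≤ 2 * C * (1 / 8) := mul_le_mul_of_nonneg_left hn1 (by positivity)
          _ ≤ C := by linarith
      · intro x y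
        refine (entry_le _ x y).trans ?_
        have h1 : ρ (((el (Z b))⁻¹ * el (Z a)) ^ n) =
            (1 + (ρ ((el (Z b))⁻¹ * el (Z a)) - 1)) ^ n := by
          rw [map_pow]
          congr 1
          abel
        rw [h1]
        refine pow_norm _ n ?_
        have h2 : ‖ρ ((el (Z b))⁻¹ * el (Z a)) - 1‖ ≤ 9 / 8 * ‖Z a - Z b‖ := by
          have e : ρ ((el (Z b))⁻¹ * el (Z a)) - 1 =
              ((ρ ((el (Z b))⁻¹ * el (Z a)) - 1) - (Z a - Z b)) + (Z a - Z b) := by abel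
          rw [e]
          refine (norm_add_le _ _).trans ?_
          linarith
        have h3 := mul_le_mul_of_nonneg_left h2 (Nat.cast_nonneg (α := ℝ) n)
        nlinarith
      · intro x y
        refine (entry_le _ x y).trans ?_
        have h1 : ρ (((el (Z b))⁻¹ * el (Z a)) ^ n)⁻¹ =
            (1 + (ρ ((el (Z a))⁻¹ * el (Z b)) - 1)) ^ n := by
          rw [← inv_pow, mul_inv_rev, inv_inv, map_pow]
          congr 1
          abel
        rw [h1]
        refine pow_norm _ n ?_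
        have hsym : ‖Z b - Z a‖ = ‖Z a - Z b‖ := norm_sub_rev _ _
        have h2 : ‖ρ ((el (Z a))⁻¹ * el (Z b)) - 1‖ ≤ 9 / 8 * ‖Z a - Z b‖ := by
          have e : ρ ((el (Z a))⁻¹ * el (Z b)) - 1 =
              ((ρ ((el (Z a))⁻¹ * el (Z b)) - 1) - (Z b - Z a)) + (Z b - Z a) := by abel
          rw [e]
          refine (norm_add_le _ _).trans ?_
          rw [hsym] at hk' ⊢
          linarith
        have h3 := mul_le_mul_of_nonneg_left h2 (Nat.cast_nonneg (α := ℝ) n)
        nlinarith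
      · -- an off-diagonal entry is large
        show ∃ x y, x ≠ y ∧ c1 ≤ ‖ρ (((el (Z b))⁻¹ * el (Z a)) ^ n) x y‖
        by_contra hno
        push Not at hno
        have h1 : (1 + (ρ ((el (Z b))⁻¹ * el (Z a)) - 1)) ^ n =
            ρ (((el (Z b))⁻¹ * el (Z a)) ^ n) := by
          rw [map_pow]
          congr 1
          abel
        rw [h1] at hn2
        have h2 : ‖Off m K (ρ (((el (Z b))⁻¹ * el (Z a)) ^ n))‖ ≤ m * c1 := by
          refine norm_le_entries hc10.le fun x y => ?_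
          rw [Off_apply]
          split_ifs with hxy
          · rw [norm_zero]; exact hc10.le
          · exact (hno x y hxy).le
        have h3 : (m : ℝ) * c1 = 1 / 64 := by rw [hc1]; field_simp
        linarith
  · rintro t ⟨-, i, j, hij, h⟩
    refine ⟨i, j, hij, ?_⟩
    intro h0
    rw [h0, norm_zero] at h
    linarith

/-- transport of the family along a continuous homomorphism -/
def famMap {S S' : Type} [Group S] [TopologicalSpace S] [Group S'] [TopologicalSpace S']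
    (F : Fam S) (f : S →* S') (hf : Continuous f) : Fam S' where
  B1 := f '' F.B1
  hB1 := F.hB1.image hf
  Sg := f '' F.Sg
  hSg := F.hSg.image hf
  d1 := F.d1
  c := F.c
  C := F.C
  c_pos := F.c_pos
  fam := by
    intro η hη hη1
    obtain ⟨N, s, h1, h2, h3⟩ := F.fam η hη hη1
    refine ⟨N, fun i => f (s i), h1, fun i => ⟨s i, h2 i, rfl⟩, fun i j hij => ?_⟩
    obtain ⟨a, ha, hSg⟩ := h3 i j hij
    exact ⟨a, ha, _, hSg, by rw [map_pow, map_mul, map_inv]⟩

end Main

end Pool.Agent.Helper7.TZ
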